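import Mathlib

set_option autoImplicit false

namespace Pool.Agent.Results.MP_801c54_lc.Exists

open Cardinal

/-- the moves `f 0, …, f (m-1)` of a play -/
def hist {M : Type} (f : ℕ → M) (m : ℕ) : List M := (List.range m).map f

/-- ONE wins the play `f` on the boards `ι` if ONE wins on at least one board -/
def OneWinsPlay (S : Set (ℕ → ℕ)) {ι : Type} (f : ℕ → ι → ℕ) : Prop :=
  ∃ α : ι, (fun n => f n α) ∈ S

/-- ONE has a winning strategy in the game on the boards `ι` -/
def OneHasWS (S : Set (ℕ → ℕ)) (ι : Type) : Prop :=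
  ∃ σ : List (ι → ℕ) → (ι → ℕ), ∀ f : ℕ → ι → ℕ,
    (∀ n, f (2 * n) = σ (hist f (2 * n))) → OneWinsPlay S f

/-- TWO has a winning strategy in the game on the boards `ι` -/
def TwoHasWS (S : Set (ℕ → ℕ)) (ι : Type) : Prop :=
  ∃ τ : List (ι → ℕ) → (ι → ℕ), ∀ f : ℕ → ι → ℕ,
    (∀ n, f (2 * n + 1) = τ (hist f (2 * n + 1))) → ¬ OneWinsPlay S f

def Determined (S : Set (ℕ → ℕ)) (ι : Type) : Prop := OneHasWS S ι ∨ TwoHasWS S ι

/-! ### plays defined by recursion -/

lemma hist_succ {M : Type} (f : ℕ → M) (m : ℕ) : hist f (m + 1) = hist f m ++ [f m] := by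
  simp [hist, List.range_succ]

lemma hist_length {M : Type} (f : ℕ → M) (m : ℕ) : (hist f m).length = m := by simp [hist]

lemma hist_getD {M : Type} (f : ℕ → M) (m i : ℕ) (h : i < m) (d : M) :
    (hist f m).getD i d = f i := by
  simp [hist, List.getD, h]

def hrec {M : Type} (F : List M → M) : ℕ → List M
  | 0 => []
  | m + 1 => hrec F m ++ [F (hrec F m)]

lemma exists_play {M : Type} (F : List M → M) : ∃ f : ℕ → M, ∀ m, f m = F (hist f m) := by
  refine ⟨fun m => F (hrec F m), fun m => ?_⟩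
  have : ∀ m, hist (fun m => F (hrec F m)) m = hrec F m := by
    intro m
    induction m with
    | zero => rfl
    | succ m ih => rw [hist_succ, ih]; rfl
  rw [this]

/-! ### the payoff set -/

/-- TWO's moves after the first one -/
def tl (x : ℕ → ℕ) : ℕ → ℕ := fun n => x (2 * n + 3)
/-- ONE's moves after the first two -/
def cd (x : ℕ → ℕ) : ℕ → ℕ := fun n => x (2 * n + 4)

/-- the key property of the complement of the payoff set -/
def Free (T : Set (ℕ → ℕ)) : Prop :=
  ∀ x ∈ T, ∀ x' ∈ T, x 1 = x' 1 → cd x = tl x' → cd x' = tl x → x = x'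

/-- TWO's restricted moves: first the board number, then `y` on every board -/
def twoMove (y : ℕ → ℕ) (m : ℕ) : ℕ → ℕ := fun k => if m = 1 then k else y ((m - 3) / 2)

/-- restricted strategies of ONE -/
abbrev RS := ℕ × List ℕ → ℕ → ℕ

/-- outcome on board `k` -/
def outc (ρ : RS) (y : ℕ → ℕ) (k : ℕ) : ℕ → ℕ := fun m =>
  if m % 2 = 0 then ρ (m, hist y ((m - 2) / 2)) k else twoMove y m k

lemma outc_one (ρ : RS) (y : ℕ → ℕ) (k : ℕ) : outc ρ y k 1 = k := by simp [outc, twoMove]

lemma tl_outc (ρ : RS) (y : ℕ → ℕ) (k : ℕ) : tl (outc ρ y k) = y := by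
  funext n
  have h1 : (2 * n + 3) % 2 ≠ 0 := by omega
  have h2 : 2 * n + 3 ≠ 1 := by omega
  have h3 : (2 * n + 3 - 3) / 2 = n := by omega
  simp only [tl, outc, twoMove, h1, h2, h3, if_false]

lemma card_RS : #RS = 𝔠 := by
  simp [RS]

lemma exists_choice : ∃ (r : RS → RS → Prop) (Y : RS → ℕ → ℕ), IsWellOrder RS r ∧
    ∀ ρ η, r η ρ → ∀ k, Y ρ ≠ cd (outc η (Y η) k) ∧ Y ρ ≠ Y η := by
  obtain ⟨r, wo, hr⟩ := Cardinal.exists_ord_eq RS
  have key : ∀ ρ (prev : ∀ η, r η ρ → ℕ → ℕ), ∃ y : ℕ → ℕ,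
      ∀ η (h : r η ρ) k, y ≠ cd (outc η (prev η h) k) ∧ y ≠ prev η h := by
    intro ρ prev
    have hc : #{η // r η ρ} < 𝔠 := by
      have := Cardinal.card_typein_lt ρ hr
      rw [card_RS] at this
      exact this
    let g : {η // r η ρ} × Option ℕ → ℕ → ℕ := fun p =>
      match p.2 with
      | none => prev p.1.1 p.1.2
      | some k => cd (outc p.1.1 (prev p.1.1 p.1.2) k)
    have hlt : #({η // r η ρ} × Option ℕ) < #(ℕ → ℕ) := by
      have e1 : #(ℕ → ℕ) = 𝔠 := by simp
      have e2 : #(Option ℕ) = ℵ₀ := Cardinal.mk_eq_aleph0 _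
      rw [e1, Cardinal.mk_prod, e2]
      simp only [Cardinal.lift_id, Cardinal.lift_aleph0]
      exact Cardinal.mul_lt_of_lt Cardinal.aleph0_le_continuum hc Cardinal.aleph0_lt_continuum
    have hns : ¬ Function.Surjective g := fun hs =>
      absurd (Cardinal.mk_le_of_surjective hs) (not_le.2 hlt)
    simp only [Function.Surjective, not_forall, not_exists] at hns
    obtain ⟨y, hy⟩ := hns
    exact ⟨y, fun η h k => ⟨fun e => hy (⟨η, h⟩, some k) e.symm, fun e => hy (⟨η, h⟩, none) e.symm⟩⟩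
  choose F hF using key
  let Y : RS → ℕ → ℕ := wo.wf.fix F
  have hY : ∀ ρ, Y ρ = F ρ (fun η _ => Y η) := fun ρ => wo.wf.fix_eq F ρ
  refine ⟨r, Y, wo, fun ρ η h k => ?_⟩
  rw [hY ρ]
  exact hF ρ (fun η _ => Y η) η h k

lemma exists_T : ∃ T : Set (ℕ → ℕ), Free T ∧ ∀ ρ : RS, ∃ y, ∀ k, outc ρ y k ∈ T := by
  obtain ⟨r, Y, wo, h⟩ := exists_choice
  refine ⟨{x | ∃ ρ k, x = outc ρ (Y ρ) k}, ?_, fun ρ => ⟨Y ρ, fun k => ⟨ρ, k, rfl⟩⟩⟩
  rintro _ ⟨ρ, k, rfl⟩ _ ⟨η, l, rfl⟩ h1 h2 h3
  rw [outc_one, outc_one] at h1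
  rw [tl_outc] at h2 h3
  subst h1
  rcases trichotomous_of r ρ η with hh | hh | hh
  · exact absurd h2.symm (h η ρ hh k).1
  · rw [hh]
  · exact absurd h3.symm (h ρ η hh k).1

lemma not_one {T : Set (ℕ → ℕ)} (h : ∀ ρ : RS, ∃ y, ∀ k, outc ρ y k ∈ T) :
    ¬ OneHasWS Tᶜ ℕ := by
  rintro ⟨σ, hσ⟩
  -- the play against the restricted moves given by `y`
  have hp : ∀ y : ℕ → ℕ, ∃ f : ℕ → ℕ → ℕ, ∀ m, f m =
      if m % 2 = 0 then σ (hist f m) else twoMove y m := by
    intro y
    obtain ⟨f, hf⟩ := exists_play (fun l : List (ℕ → ℕ) =>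
      if l.length % 2 = 0 then σ l else twoMove y l.length)
    exact ⟨f, fun m => by rw [hf m, hist_length]⟩
  choose P hP using hp
  have hdep : ∀ y y' : ℕ → ℕ, ∀ m, (∀ j, 2 * j + 3 < m → y j = y' j) →
      hist (P y) m = hist (P y') m := by
    intro y y' m
    induction m with
    | zero => intro _; rfl
    | succ m ih =>
      intro hj
      have e := ih (fun j hh => hj j (by omega))
      rw [hist_succ, hist_succ, e, hP y m, hP y' m, e]
      congr 2
      split_ifs with hm
      · rfl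
      · funext k
        unfold twoMove
        split_ifs with h1
        · rfl
        · exact hj _ (by omega)
  let ρ : RS := fun p => P (fun j => p.2.getD j 0) p.1
  obtain ⟨y, hy⟩ := h ρ
  obtain ⟨k, hk⟩ := hσ (P y) (fun n => by rw [hP y (2 * n)]; simp)
  apply hk
  convert hy k using 1
  funext m
  unfold outc
  split_ifs with hm
  · show P y m k = P (fun j => (hist y ((m - 2) / 2)).getD j 0) m k
    rw [hP y m, hP _ m, if_pos hm, if_pos hm, hdep y _ m]
    intro j hj
    exact (hist_getD y _ j (by omega) 0).symm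
  · rw [hP y m, if_neg hm]

lemma not_two {T : Set (ℕ → ℕ)} (h : Free T) : ¬ TwoHasWS Tᶜ ℕ := by
  rintro ⟨τ, hτ⟩
  obtain ⟨g, hg⟩ := exists_play (fun l : List ((ℕ → ℕ) × (ℕ → ℕ)) =>
    if l.length % 2 = 1 then (τ (l.map Prod.fst), τ (l.map Prod.snd))
    else if l.length = 0 then (0, 0) else if l.length = 2 then (0, 1)
    else ((l.getD (l.length - 1) 0).2, (l.getD (l.length - 1) 0).1))
  simp only [hist_length] at hg
  have e1 : ∀ m, (hist g m).map Prod.fst = hist (fun n => (g n).1) m := by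
    intro m; simp [hist]
  have e2 : ∀ m, (hist g m).map Prod.snd = hist (fun n => (g n).2) m := by
    intro m; simp [hist]
  have a1 := hτ (fun n => (g n).1) (fun n => by
    rw [hg (2 * n + 1), if_pos (by omega), e1])
  have a2 := hτ (fun n => (g n).2) (fun n => by
    rw [hg (2 * n + 1), if_pos (by omega), e2])
  simp only [OneWinsPlay, not_exists, Set.mem_compl_iff, not_not] at a1 a2
  have g0 : g 0 = (0, 0) := by rw [hg 0]; simp
  have g2 : g 2 = (0, 1) := by rw [hg 2]; simp
  have g4 : ∀ n, g (2 * n + 4) = ((g (2 * n + 3)).2, (g (2 * n + 3)).1) := by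
    intro n
    rw [hg (2 * n + 4), if_neg (by omega), if_neg (by omega), if_neg (by omega),
      hist_getD g _ _ (by omega)]
    rfl
  have := h _ (a1 0) _ (a2 0) (by
      show (g 1).1 0 = (g 1).2 0
      rw [hg 1]
      simp [hist, g0]) (by
      funext n
      show (g (2 * n + 4)).1 0 = (g (2 * n + 3)).2 0
      rw [g4]) (by
      funext n
      show (g (2 * n + 4)).2 0 = (g (2 * n + 3)).1 0
      rw [g4])
  have := congrFun this 2
  simp [g2] at this

lemma one_wins {T : Set (ℕ → ℕ)} (h : Free T) (ι : Type) [Uncountable ι] : OneHasWS Tᶜ ι := by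
  classical
  have hp : ∀ u : ι → ℕ, ∃ p : ι × ι, u p.1 = u p.2 ∧ p.1 ≠ p.2 := by
    intro u
    have := not_injective_uncountable_countable u
    simp only [Function.Injective, not_forall] at this
    obtain ⟨a, b, h1, h2⟩ := this
    exact ⟨(a, b), h1, h2⟩
  choose p hp1 hp2 using hp
  refine ⟨fun l => if l.length = 0 then 0 else
    if l.length = 2 then (fun α => if α = (p (l.getD 1 0)).1 then 0 else 1) else
      (fun α => if α = (p (l.getD 1 0)).1 then l.getD (l.length - 1) 0 (p (l.getD 1 0)).2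
        else l.getD (l.length - 1) 0 (p (l.getD 1 0)).1), ?_⟩
  intro f hf
  simp only [hist_length] at hf
  by_contra hcon
  simp only [OneWinsPlay, not_exists, Set.mem_compl_iff, not_not] at hcon
  have f2 : f 2 = fun α => if α = (p (f 1)).1 then 0 else 1 := by
    have := hf 1
    rw [if_neg (by omega), if_pos rfl, hist_getD f _ _ (by omega)] at this
    exact this
  have f4 : ∀ n, f (2 * n + 4) = fun α => if α = (p (f 1)).1 then f (2 * n + 3) (p (f 1)).2
      else f (2 * n + 3) (p (f 1)).1 := by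
    intro n
    have := hf (n + 2)
    rw [if_neg (by omega), if_neg (by omega), hist_getD f _ _ (by omega),
      hist_getD f _ _ (by omega)] at this
    exact this
  have := h _ (hcon (p (f 1)).1) _ (hcon (p (f 1)).2) (hp1 _) (by
      funext n
      show f (2 * n + 4) _ = f (2 * n + 3) _
      rw [f4]; simp) (by
      funext n
      show f (2 * n + 4) _ = f (2 * n + 3) _
      rw [f4]; simp [(hp2 (f 1)).symm])
  have := congrFun this 2
  simp [f2, (hp2 (f 1)).symm] at this

/-- There is a payoff set for which ONE wins on every uncountable set of boards (in particular on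
continuum many boards), while the game on countably infinitely many boards is undetermined. -/
theorem result : ∃ S : Set (ℕ → ℕ),
    (∀ ι : Type, Uncountable ι → OneHasWS S ι) ∧ Determined S ℝ ∧ ¬ Determined S ℕ := by
  obtain ⟨T, h1, h2⟩ := exists_T
  exact ⟨Tᶜ, fun ι _ => one_wins h1 ι, Or.inl (one_wins h1 ℝ),
    fun h => h.elim (not_one h2) (not_two h1)⟩

end Pool.Agent.Results.MP_801c54_lc.Exists
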